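import Pool.Agent.H66.XP.TH

/-!
# Board xpm_modules, row QDP: the queried strings
-/

set_option autoImplicit false

namespace Pool.Agent.H89.XP

open Pool.Agent.H66.XP Pool.Agent.H6.NB

theorem pf_QDP : T_QDP := by
  intro O T
  induction T with
  | leaf b =>
    refine ⟨le_rfl, ?_⟩
    intro O' _
    exact ⟨rfl, rfl⟩
  | node w l r ihl ihr =>
    have hq : ∀ P : List Bool → Bool, qd P (.node w l r) = w :: if P w then qd P r else qd P l :=
      fun _ => rfl
    have he : ∀ P : List Bool → Bool, DT.eval P (.node w l r) =
        if P w then r.eval P else l.eval P := fun _ => rfl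
    have hd : DT.depth (.node w l r) = max l.depth r.depth + 1 := rfl
    constructor
    · rw [hq, hd, List.length_cons]
      refine Nat.succ_le_succ ?_
      by_cases h : O w
      · rw [if_pos h]
        exact ihr.1.trans (le_max_right _ _)
      · rw [if_neg h]
        exact ihl.1.trans (le_max_left _ _)
    · intro O' hO
      rw [hq] at hO
      have hw : O' w = O w := hO w List.mem_cons_self
      rw [hq, hq, he, he, hw]
      by_cases h : O w
      · rw [if_pos h] at hO
        rw [if_pos h, if_pos h, if_pos h, if_pos h]
        obtain ⟨h1, h2⟩ := ihr.2 O' fun v hv => hO v (List.mem_cons_of_mem _ hv)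
        exact ⟨by rw [h1], h2⟩
      · rw [if_neg h] at hO
        rw [if_neg h, if_neg h, if_neg h, if_neg h]
        obtain ⟨h1, h2⟩ := ihl.2 O' fun v hv => hO v (List.mem_cons_of_mem _ hv)
        exact ⟨by rw [h1], h2⟩

end Pool.Agent.H89.XP
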